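import Pool.Agent.Lib.MP_89b5c6_co.Br

/-!
# Class one for a graph or its complement: large spread of the degrees, or sparse cores

The vertices of full degree in a critical subgraph of `G` and in a critical subgraph of the complement are joined
completely in one of these two critical graphs; the adjacency lemmas of Vizing and Woodall are used on both sides.
-/

set_option autoImplicit false

namespace Pool.Agent.Results.MP_89b5c6_co.SpreadOrSparseCore

/-- The chromatic index: the least number of colours in a proper edge colouring, that is in a proper vertex colouring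
of the line graph. -/
noncomputable def chromaticIndex {V : Type} (G : SimpleGraph V) : ℕ :=
  sInf {n : ℕ | G.lineGraph.Colorable n}

/-- A finite graph is of class one if its chromatic index equals its maximum degree. -/
def ClassOne {V : Type} [Fintype V] (G : SimpleGraph V) [DecidableRel G.Adj] : Prop :=
  chromaticIndex G = G.maxDegree

/-- The core (the graph induced by the vertices of maximum degree) is `k`-degenerate: every nonempty set `S` of
vertices of maximum degree contains a vertex with at most `k` neighbours in `S`. -/
def SparseCore {V : Type} [Fintype V] (G : SimpleGraph V) [DecidableRel G.Adj] (k : ℕ) : Prop :=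
  ∀ S : Finset V, S.Nonempty → (∀ v ∈ S, G.degree v = G.maxDegree) →
    ∃ v ∈ S, (S.filter (G.Adj v)).card ≤ k

/-- The minimum degree is at most about half of the maximum degree, or the core is `(Δ - δ)`-degenerate. -/
def Good {V : Type} [Fintype V] (G : SimpleGraph V) [DecidableRel G.Adj] : Prop :=
  2 * G.minDegree ≤ G.maxDegree + 1 ∨ SparseCore G (G.maxDegree - G.minDegree)

theorem sum_deg {V : Type} [Fintype V] [DecidableEq V] (G : SimpleGraph V) [DecidableRel G.Adj]
    (v : V) : G.degree v + Gᶜ.degree v + 1 = Fintype.card V := by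
  have h1 := G.degree_compl v
  have h2 := G.degree_lt_card_verts v
  omega

theorem max_min {V : Type} [Fintype V] [DecidableEq V] [Nonempty V] (G G' : SimpleGraph V)
    [DecidableRel G.Adj] [DecidableRel G'.Adj]
    (h : ∀ v, G.degree v + G'.degree v + 1 = Fintype.card V) :
    G.maxDegree + G'.minDegree + 1 = Fintype.card V := by
  obtain ⟨u, hu⟩ := G.exists_maximal_degree_vertex
  obtain ⟨v, hv⟩ := G'.exists_minimal_degree_vertex
  have h1 := h u
  have h2 := h v
  have h3 := G'.minDegree_le_degree u
  have h4 := G.degree_le_maxDegree v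
  omega

theorem main {V : Type} [Fintype V] [DecidableEq V] (G : SimpleGraph V) [DecidableRel G.Adj]
    (h : Good G) (h' : Good Gᶜ) : ClassOne G ∨ ClassOne Gᶜ := by
  rcases isEmpty_or_nonempty V with hV | hV
  · left
    exact TwoSided.sInf_eq_maxDegree G (TwoSided.empty_colorable G _)
  have hs : ∀ v, G.degree v + Gᶜ.degree v + 1 = Fintype.card V := sum_deg G
  have hs' : ∀ v, Gᶜ.degree v + G.degree v + 1 = Fintype.card V := fun v => by
    have := hs v
    omega
  have h1 := max_min G Gᶜ hs
  have h2 := max_min Gᶜ G hs'
  obtain ⟨u, hu⟩ := G.exists_maximal_degree_vertex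
  have h3 := G.minDegree_le_degree u
  have h4 := TwoSided.colorable_or G Gᶜ (Δ := G.maxDegree) (Δ' := Gᶜ.maxDegree)
    (g := G.maxDegree - G.minDegree)
    (fun v => by rw [TwoSided.dg_eq_degree]; exact G.degree_le_maxDegree v)
    (fun v => by rw [TwoSided.dg_eq_degree]; exact Gᶜ.degree_le_maxDegree v)
    (fun v => by rw [TwoSided.dg_eq_degree, TwoSided.dg_eq_degree]; exact hs v) (by omega)
    (fun a b hab => by
      by_cases h : G.Adj a b
      · exact Or.inl h
      · right
        rw [SimpleGraph.compl_adj]
        exact ⟨hab, h⟩) ?_ ?_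
  · rcases h4 with h4 | h4
    · exact Or.inl (TwoSided.sInf_eq_maxDegree G h4)
    · exact Or.inr (TwoSided.sInf_eq_maxDegree Gᶜ h4)
  · rcases h with h | h
    · left
      omega
    · right
      intro S hS hdeg
      obtain ⟨v, hv, hle⟩ := h S hS (fun v hv => by
        rw [← TwoSided.dg_eq_degree]
        exact hdeg v hv)
      refine ⟨v, hv, le_trans (Finset.card_le_card ?_) hle⟩
      intro z hz
      rw [TwoSided.mem_ns] at hz
      rw [Finset.mem_filter]
      exact hz
  · rcases h' with h | h
    · left
      omega
    · right
      have hk : Gᶜ.maxDegree - Gᶜ.minDegree = G.maxDegree - G.minDegree := by omega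
      rw [hk] at h
      intro S hS hdeg
      obtain ⟨v, hv, hle⟩ := h S hS (fun v hv => by
        rw [← TwoSided.dg_eq_degree]
        exact hdeg v hv)
      refine ⟨v, hv, le_trans (Finset.card_le_card ?_) hle⟩
      intro z hz
      rw [TwoSided.mem_ns] at hz
      rw [Finset.mem_filter]
      exact hz

/-- A core with at most `k + 1` vertices is sparse. -/
theorem sparse_of_card {V : Type} [Fintype V] (G : SimpleGraph V) [DecidableRel G.Adj] {k : ℕ}
    (h : (Finset.univ.filter fun v => G.degree v = G.maxDegree).card ≤ k + 1) :
    SparseCore G k := by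
  classical
  intro S hS hdeg
  obtain ⟨v, hv⟩ := hS
  refine ⟨v, hv, ?_⟩
  have h1 : S.filter (G.Adj v) ⊆ S.erase v := by
    intro z hz
    rw [Finset.mem_filter] at hz
    rw [Finset.mem_erase]
    exact ⟨hz.2.ne', hz.1⟩
  have h2 : S ⊆ Finset.univ.filter fun v => G.degree v = G.maxDegree := by
    intro z hz
    rw [Finset.mem_filter]
    exact ⟨Finset.mem_univ _, hdeg z hz⟩
  have h3 := Finset.card_le_card h1
  have h4 := Finset.card_le_card h2
  have h5 := Finset.card_erase_of_mem hv
  omega

/-- **Class one for a graph or its complement.** -/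
theorem result (V : Type) [Fintype V] [DecidableEq V] (G : SimpleGraph V) [DecidableRel G.Adj] :
    (Good G → Good Gᶜ → ClassOne G ∨ ClassOne Gᶜ) ∧
    (Fintype.card V ≤ 2 * (G.maxDegree - G.minDegree) + 2 → ClassOne G ∨ ClassOne Gᶜ) ∧
    ((Finset.univ.filter fun v => G.degree v = G.maxDegree).card ≤
        G.maxDegree - G.minDegree + 1 →
      (Finset.univ.filter fun v => G.degree v = G.minDegree).card ≤
        G.maxDegree - G.minDegree + 1 → ClassOne G ∨ ClassOne Gᶜ) := by
  refine ⟨main G, ?_, ?_⟩
  · intro hn
    rcases isEmpty_or_nonempty V with hV | hV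
    · left
      exact TwoSided.sInf_eq_maxDegree G (TwoSided.empty_colorable G _)
    have hs : ∀ v, G.degree v + Gᶜ.degree v + 1 = Fintype.card V := sum_deg G
    have h1 := max_min G Gᶜ hs
    have h2 := max_min Gᶜ G (fun v => by have := hs v; omega)
    obtain ⟨u, hu⟩ := G.exists_maximal_degree_vertex
    have h3 := G.minDegree_le_degree u
    exact main G (Or.inl (by omega)) (Or.inl (by omega))
  · intro hA hB
    rcases isEmpty_or_nonempty V with hV | hV
    · left
      exact TwoSided.sInf_eq_maxDegree G (TwoSided.empty_colorable G _)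
    have hs : ∀ v, G.degree v + Gᶜ.degree v + 1 = Fintype.card V := sum_deg G
    have h1 := max_min G Gᶜ hs
    have h2 := max_min Gᶜ G (fun v => by have := hs v; omega)
    obtain ⟨u, hu⟩ := G.exists_maximal_degree_vertex
    have h3 := G.minDegree_le_degree u
    refine main G (Or.inr (sparse_of_card G hA)) (Or.inr (sparse_of_card Gᶜ ?_))
    have hk : Gᶜ.maxDegree - Gᶜ.minDegree = G.maxDegree - G.minDegree := by omega
    rw [hk]
    refine le_trans (Finset.card_le_card ?_) hB
    intro z hz
    rw [Finset.mem_filter] at hz ⊢
    have := hs z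
    have := hz.2
    exact ⟨Finset.mem_univ _, by omega⟩

end Pool.Agent.Results.MP_89b5c6_co.SpreadOrSparseCore
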